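import Pool.Agent.H88.KA.CN2c
import Pool.Agent.H88.KA.CN3
import Pool.Agent.H88.KA.CL5
import Pool.Agent.H88.KA.FJ3

/-!
KAC ADE numbers, class zero of `E_7`, `E_8`: root one, divisibility along a chain, the value at one.
-/

set_option autoImplicit false

namespace Pool.Agent.H40.NUM

open scoped BigOperators
open Pool.Agent.H27.KAC Pool.H88.Num
open Polynomial

section

variable {I : Type} [Fintype I] [DecidableEq I]

theorem comps_empty' (a : I → I → ℕ) : comps a (∅ : Finset I) = ∅ := by
  rw [Finset.eq_empty_iff_forall_notMem]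
  intro N hN
  obtain ⟨x, hx⟩ := (comps_conn hN).1
  exact absurd (comps_subset hN hx) (Finset.notMem_empty x)

theorem isZ_zero : IsZ (0 : ℚ) := ⟨0, by push_cast; rfl⟩

/-- the root one. -/
theorem N1_a {a : I → I → ℕ} {cd : CrossData a} {A : Finset I} {P : Polynomial ℚ}
    (hA : A.Nonempty) (h : PolyOf a cd A (fun _ => 0) P) : (1 - X) ^ (A.card + 1) ∣ P := by
  refine Pool.H88.KA.pow_dvd_of_sums P A.card (fun j hj => ?_)
  obtain ⟨J, hJ, hJc⟩ := Finset.exists_subset_card_eq hj
  have h1 := h.ann A (Finset.Subset.refl A) hA (fun x _ => isZ_zero)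
    (fun x => if x ∈ J then 0 else 1) (fun x => if x ∈ J then 1 else 0) (fun _ => 0) (by
      intro N hN
      rw [Finset.sdiff_self, comps_empty'] at hN
      exact absurd hN (Finset.notMem_empty N))
  rw [h.deg]
  rw [← h1]
  refine Finset.sum_congr rfl fun i _ => ?_
  have h2 : ∏ s ∈ A, ((if s ∈ J then (0 : ℚ) else 1) + (if s ∈ J then (1 : ℚ) else 0) * i) =
      (i : ℚ) ^ j := by
    have h3 : ∀ s ∈ A, ((if s ∈ J then (0 : ℚ) else 1) + (if s ∈ J then (1 : ℚ) else 0) * i) =
        if s ∈ J then (i : ℚ) else 1 := by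
      intro s _
      by_cases hs : s ∈ J
      · rw [if_pos hs, if_pos hs, if_pos hs]
        ring
      · rw [if_neg hs, if_neg hs, if_neg hs]
        ring
    rw [Finset.prod_congr rfl h3, Finset.prod_ite_mem, Finset.inter_eq_right.2 hJ,
      Finset.prod_const, hJc]
  rw [h2, Finset.sdiff_self, comps_empty', Finset.prod_empty, mul_one]

/-- divisibility along a chain. -/
theorem N1_b {a : I → I → ℕ} {cd : CrossData a} {A B : Finset I} {P F : Polynomial ℚ} {x : I}
    (hx : x ∈ A) (hB : comps a (A \ {x}) = {B}) (hP : PolyOf a cd A (fun _ => 0) P)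
    (hF : PolyOf a cd B (fun _ => 0) F) : F ∣ P ∧ F ∣ X * derivative P := by
  have key : ∀ (α κ : ℚ) (L : ℕ), cd.mm A ≤ L →
      ∑ i ∈ Finset.range (L + 1), (P.coeff i * (α + κ * i)) * cn a cd B (fun _ => 0) (L - i) = 0 := by
    intro α κ L hL
    have h1 := hP.ann {x} (Finset.singleton_subset_iff.2 hx) (Finset.singleton_nonempty x)
      (fun y _ => isZ_zero) (fun _ => α) (fun _ => κ) (fun _ => L) (by
        intro N _
        have := cd.two_le N
        omega)
    rw [hB] at h1
    simp only [Finset.prod_singleton] at h1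
    have h2 : ∑ i ∈ Finset.range (cd.mm A + 1),
        P.coeff i * (α + κ * i) * cnS a cd B (fun _ => 0) L i =
        ∑ i ∈ Finset.range (cd.mm A + 1),
          (P.coeff i * (α + κ * i)) * cn a cd B (fun _ => 0) (L - i) := by
      refine Finset.sum_congr rfl fun i hi => ?_
      unfold cnS
      rw [if_pos (by rw [Finset.mem_range] at hi; omega)]
    rw [h2] at h1
    refine Eq.trans (Eq.symm (Finset.sum_subset (fun i hi => ?_) (fun i hi hi' => ?_))) h1
    · rw [Finset.mem_range] at hi ⊢
      omega
    · rw [Finset.mem_range] at hi'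
      have : P.coeff i = 0 := Polynomial.coeff_eq_zero_of_natDegree_lt (by rw [hP.deg]; omega)
      rw [this]
      ring
  constructor
  · refine dvd_of_coeff P F _ hF.mul (cd.mm A) (fun L hL => ?_)
    refine Eq.trans (Finset.sum_congr rfl fun i _ => ?_) (key 1 0 L hL)
    ring
  · refine dvd_of_coeff (X * derivative P) F _ hF.mul (cd.mm A) (fun L hL => ?_)
    refine Eq.trans (Finset.sum_congr rfl fun i _ => ?_) (key 0 1 L hL)
    congr 1
    rcases i with _ | i
    · rw [Polynomial.mul_coeff_zero, Polynomial.coeff_X_zero]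
      push_cast
      ring
    · rw [Polynomial.coeff_X_mul, Polynomial.coeff_derivative]
      push_cast
      ring

/-- the value at one. -/
theorem N1_c {a : I → I → ℕ} (hs : ∀ i j, a i j = a j i) (cd : CrossData a) {A : Finset I}
    (hA : FinT a A) : cn a cd A (fun _ => 0) 1 = dt a A := by
  rw [cn_eq_PhN hs cd hA 1 le_rfl]
  have h1 : PhN a cd A 1 = 1 := by
    unfold PhN
    rw [Finset.sum_eq_single A]
    · unfold tmN
      rw [Finset.sdiff_self, comps_empty', Finset.prod_empty]
      push_cast
      ring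
    · intro M hM hne
      unfold tmN
      have h2 : (A \ M).Nonempty := by
        rw [Finset.nonempty_iff_ne_empty]
        intro h
        exact hne (Finset.Subset.antisymm (Finset.mem_powerset.1 hM)
          (Finset.sdiff_eq_empty_iff_subset.1 h))
      obtain ⟨x, hx⟩ := h2
      obtain ⟨N, hN, -⟩ := comps_cover hs x hx
      rw [Finset.prod_eq_zero hN, mul_zero]
      unfold wN upw
      have := cd.two_le N
      rw [if_neg (by omega)]
      ring
    · intro h
      exact absurd (Finset.mem_powerset.2 (Finset.Subset.refl A)) h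
  rw [h1, mul_one]

end

end Pool.Agent.H40.NUM
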