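import Pool.Agent.H88.KA.CN2c
import Pool.Agent.H88.KA.CL5

/-!
KAC ADE numbers: connectedness of standard sets, erasing the end of the long arm, determinants.
-/

set_option autoImplicit false

namespace Pool.Agent.H40.NUM

open scoped BigOperators
open Pool.Agent.H27.KAC Pool.H88.Num
open Pool.H88.KA (Typ Std cox MMok mm_eq TT typ_exists)

section

variable {I : Type} [Fintype I] [DecidableEq I]

omit [Fintype I] in
/-- a standard set is connected. -/
theorem typ_conn {a : I → I → ℕ} {A : Finset I} {n c : ℕ} {φ : Fin n → I} (h : Typ a A n c φ)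
    (hc : c + 2 ≤ n) : ConnS a A := by
  refine ⟨⟨φ ⟨0, by omega⟩, h.mem _⟩, ?_⟩
  intro T hT hTne hTA
  by_contra hcon
  push Not at hcon
  have hcl : ∀ i j : Fin n, TT n c i j = 1 → φ i ∈ T → φ j ∈ T := by
    intro i j hij hi
    by_contra hj
    have h1 := hcon (φ i) hi (φ j) (h.mem j) hj
    rw [h.adj, hij] at h1
    omega
  have hpath : ∀ p (hp : p + 2 ≤ n), (φ ⟨p, by omega⟩ ∈ T ↔ φ ⟨0, by omega⟩ ∈ T) := by
    intro p
    induction p with
    | zero =>
      intro _
      exact Iff.rfl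
    | succ p ih =>
      intro hp
      rw [← ih (by omega)]
      constructor
      · apply hcl
        unfold TT
        rw [if_pos]
        right
        left
        exact ⟨rfl, hp⟩
      · apply hcl
        unfold TT
        rw [if_pos]
        left
        exact ⟨rfl, hp⟩
  have hlast : (φ ⟨n - 1, by omega⟩ ∈ T ↔ φ ⟨0, by omega⟩ ∈ T) := by
    rw [← hpath c hc]
    constructor
    · apply hcl
      unfold TT
      rw [if_pos]
      right
      right
      right
      refine ⟨rfl, ?_, ?_⟩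
      · show n - 1 + 1 = n
        omega
      · show n - 1 ≠ c
        omega
    · apply hcl
      unfold TT
      rw [if_pos]
      right
      right
      left
      refine ⟨rfl, ?_, ?_⟩
      · show n - 1 + 1 = n
        omega
      · show c ≠ n - 1
        omega
  have hall : ∀ i : Fin n, (φ i ∈ T ↔ φ ⟨0, by omega⟩ ∈ T) := by
    intro i
    by_cases hi : i.1 + 2 ≤ n
    · exact hpath i.1 hi
    · have h1 : i = ⟨n - 1, by omega⟩ := Fin.ext (by have := i.2; show i.1 = n - 1; omega)
      rw [h1]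
      exact hlast
  obtain ⟨x, hx⟩ := hTne
  obtain ⟨i, hi⟩ := h.surj x (hT hx)
  have h0 : φ ⟨0, by omega⟩ ∈ T := by
    rw [← hall i, hi]
    exact hx
  apply hTA
  apply Finset.Subset.antisymm hT
  intro y hy
  obtain ⟨j, rfl⟩ := h.surj y hy
  rw [hall j]
  exact h0

omit [Fintype I] in
/-- erasing the end of the long arm. -/
theorem typ_erase {a : I → I → ℕ} {A : Finset I} {n c : ℕ} {φ : Fin (n + 1) → I}
    (h : Typ a A (n + 1) c φ) (hc : c + 2 ≤ n) :
    Typ a (A.erase (φ ⟨n - 1, by omega⟩)) n c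
      (fun i => if i.1 = n - 1 then φ ⟨n, by omega⟩ else φ ⟨i.1, by omega⟩) := by
  have key : ∀ i : Fin n, ∃ k : Fin (n + 1), (if i.1 = n - 1 then φ ⟨n, by omega⟩ else
      φ ⟨i.1, by omega⟩) = φ k ∧ k.1 = (if i.1 = n - 1 then n else i.1) := by
    intro i
    by_cases hi : i.1 = n - 1
    · exact ⟨⟨n, by omega⟩, by rw [if_pos hi], by rw [if_pos hi]⟩
    · exact ⟨⟨i.1, by omega⟩, by rw [if_neg hi], by rw [if_neg hi]⟩
  refine ⟨?_, ?_, ?_, ?_⟩
  · intro i j hij
    obtain ⟨k, hk, hk'⟩ := key i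
    obtain ⟨l, hl, hl'⟩ := key j
    have h1 : φ k = φ l := by
      rw [← hk, ← hl]
      exact hij
    have h2 : k.1 = l.1 := congrArg Fin.val (h.inj h1)
    rw [hk', hl'] at h2
    have := i.2
    have := j.2
    apply Fin.ext
    split_ifs at h2 <;> omega
  · intro i
    obtain ⟨k, hk, hk'⟩ := key i
    show (if i.1 = n - 1 then φ ⟨n, by omega⟩ else φ ⟨i.1, by omega⟩) ∈ _
    rw [hk, Finset.mem_erase]
    refine ⟨?_, h.mem k⟩
    intro h1
    have h2 : k.1 = n - 1 := congrArg Fin.val (h.inj h1)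
    have := i.2
    rw [hk'] at h2
    split_ifs at h2 <;> omega
  · intro x hx
    rw [Finset.mem_erase] at hx
    obtain ⟨k, rfl⟩ := h.surj x hx.2
    have hk := k.2
    have hk1 : k.1 ≠ n - 1 := by
      intro h1
      apply hx.1
      congr 1
      exact Fin.ext h1
    by_cases h2 : k.1 = n
    · refine ⟨⟨n - 1, by omega⟩, ?_⟩
      refine (if_pos rfl).trans ?_
      congr 1
      exact Fin.ext h2.symm
    · refine ⟨⟨k.1, by omega⟩, ?_⟩
      simp only
      rw [if_neg hk1]
  · intro i j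
    obtain ⟨k, hk, hk'⟩ := key i
    obtain ⟨l, hl, hl'⟩ := key j
    show a (if i.1 = n - 1 then φ ⟨n, by omega⟩ else φ ⟨i.1, by omega⟩)
      (if j.1 = n - 1 then φ ⟨n, by omega⟩ else φ ⟨j.1, by omega⟩) = _
    rw [hk, hl, h.adj]
    unfold TT
    rw [hk', hl']
    have := i.2
    have := j.2
    congr 1
    apply propext
    by_cases hi : i.1 = n - 1
    · by_cases hj : j.1 = n - 1
      · rw [if_pos hi, if_pos hj]
        omega
      · rw [if_pos hi, if_neg hj]
        omega
    · by_cases hj : j.1 = n - 1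
      · rw [if_neg hi, if_pos hj]
        omega
      · rw [if_neg hi, if_neg hj]
        omega

/-- integral Cartan matrix of the standard graph. -/
def Dm (n c : ℕ) : Matrix (Fin n) (Fin n) ℤ :=
  Matrix.of (fun i j => (if i = j then 2 else 0) - (TT n c i j : ℤ))

omit [Fintype I] in
/-- the determinant of a standard set. -/
theorem dt_typ {a : I → I → ℕ} {A : Finset I} {n c : ℕ} {φ : Fin n → I} (h : Typ a A n c φ) :
    dt a A = ((Dm n c).det : ℚ) := by
  classical
  obtain ⟨e, he⟩ : ∃ e : Fin n ≃ {x // x ∈ A}, ∀ i, (e i).1 = φ i := by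
    refine ⟨Equiv.ofBijective (fun i => ⟨φ i, h.mem i⟩) ⟨?_, ?_⟩, fun i => rfl⟩
    · intro i j hij
      exact h.inj (congrArg Subtype.val hij)
    · intro x
      obtain ⟨i, hi⟩ := h.surj x.1 x.2
      exact ⟨i, Subtype.ext hi⟩
  have h1 : ((Dm n c).det : ℚ) = ((Int.castRingHom ℚ).mapMatrix (Dm n c)).det := by
    rw [← RingHom.map_det]
    rfl
  unfold dt
  rw [h1]
  have h2 := Matrix.det_submatrix_equiv_self e
    (Matrix.of (fun (i j : {x // x ∈ A}) => (cart a i.1 j.1 : ℚ)))
  refine Eq.trans ?_ (h2.symm.trans ?_)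
  · congr!
  · congr 1
    ext i j
    show (cart a (e i).1 (e j).1 : ℚ) = (((if i = j then 2 else 0) - (TT n c i j : ℤ) : ℤ) : ℚ)
    unfold cart
    rw [he, he, h.adj]
    have h3 : (φ i = φ j) = (i = j) := propext ⟨fun hij => h.inj hij, fun hij => by rw [hij]⟩
    simp only [h3]

end

end Pool.Agent.H40.NUM
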