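import Pool.Agent.H40.NUM.N2

/-!
KAC ADE numbers: determinants of the exceptional graphs.
-/

set_option autoImplicit false
set_option maxRecDepth 100000

namespace Pool.Agent.H40.NUM

open Pool.H88.KA (TT)

private theorem det_aux {n : ℕ} {D U L : Matrix (Fin n) (Fin n) ℤ} (h : D * U = L)
    (hU : ∀ i j, j < i → U i j = 0) (hL : ∀ i j, i < j → L i j = 0) :
    D.det * ∏ i, U i i = ∏ i, L i i := by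
  rw [← Matrix.det_of_upperTriangular (M := U) (fun i j h => hU i j h),
    ← Matrix.det_of_lowerTriangular L (fun i j h => hL i j h), ← Matrix.det_mul, h]

theorem Dm_A1 : (Dm 1 0).det = 2 := by
  have h := det_aux (D := Dm 1 0)
    (U := !![1])
    (L := !![2]) (by decide +kernel)
    (by decide +kernel) (by decide +kernel)
  rw [show ∏ i : Fin 1, (!![1] : Matrix (Fin 1) (Fin 1) ℤ) i i = 1 from by decide +kernel,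
    show ∏ i : Fin 1, (!![2] : Matrix (Fin 1) (Fin 1) ℤ) i i = 2 from by decide +kernel] at h
  omega

theorem Dm_A2 : (Dm 2 0).det = 3 := by
  have h := det_aux (D := Dm 2 0)
    (U := !![1, 1; 0, 2])
    (L := !![2, 0; -1, 3]) (by decide +kernel)
    (by decide +kernel) (by decide +kernel)
  rw [show ∏ i : Fin 2, (!![1, 1; 0, 2] : Matrix (Fin 2) (Fin 2) ℤ) i i = 2 from by decide +kernel,
    show ∏ i : Fin 2, (!![2, 0; -1, 3] : Matrix (Fin 2) (Fin 2) ℤ) i i = 6 from by decide +kernel] at h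
  omega

theorem Dm_A3 : (Dm 3 1).det = 4 := by
  have h := det_aux (D := Dm 3 1)
    (U := !![1, 1, 1; 0, 2, 2; 0, 0, 3])
    (L := !![2, 0, 0; -1, 3, 0; 0, -2, 4]) (by decide +kernel)
    (by decide +kernel) (by decide +kernel)
  rw [show ∏ i : Fin 3, (!![1, 1, 1; 0, 2, 2; 0, 0, 3] : Matrix (Fin 3) (Fin 3) ℤ) i i = 6 from by decide +kernel,
    show ∏ i : Fin 3, (!![2, 0, 0; -1, 3, 0; 0, -2, 4] : Matrix (Fin 3) (Fin 3) ℤ) i i = 24 from by decide +kernel] at h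
  omega

theorem Dm_A4 : (Dm 4 2).det = 5 := by
  have h := det_aux (D := Dm 4 2)
    (U := !![1, 1, 1, 1; 0, 2, 2, 2; 0, 0, 3, 3; 0, 0, 0, 4])
    (L := !![2, 0, 0, 0; -1, 3, 0, 0; 0, -2, 4, 0; 0, 0, -3, 5]) (by decide +kernel)
    (by decide +kernel) (by decide +kernel)
  rw [show ∏ i : Fin 4, (!![1, 1, 1, 1; 0, 2, 2, 2; 0, 0, 3, 3; 0, 0, 0, 4] : Matrix (Fin 4) (Fin 4) ℤ) i i = 24 from by decide +kernel,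
    show ∏ i : Fin 4, (!![2, 0, 0, 0; -1, 3, 0, 0; 0, -2, 4, 0; 0, 0, -3, 5] : Matrix (Fin 4) (Fin 4) ℤ) i i = 120 from by decide +kernel] at h
  omega

theorem Dm_D5 : (Dm 5 2).det = 4 := by
  have h := det_aux (D := Dm 5 2)
    (U := !![1, 1, 1, 1, 2; 0, 2, 2, 2, 4; 0, 0, 3, 3, 6; 0, 0, 0, 4, 3; 0, 0, 0, 0, 5])
    (L := !![2, 0, 0, 0, 0; -1, 3, 0, 0, 0; 0, -2, 4, 0, 0; 0, 0, -3, 5, 0; 0, 0, -3, -3, 4]) (by decide +kernel)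
    (by decide +kernel) (by decide +kernel)
  rw [show ∏ i : Fin 5, (!![1, 1, 1, 1, 2; 0, 2, 2, 2, 4; 0, 0, 3, 3, 6; 0, 0, 0, 4, 3; 0, 0, 0, 0, 5] : Matrix (Fin 5) (Fin 5) ℤ) i i = 120 from by decide +kernel,
    show ∏ i : Fin 5, (!![2, 0, 0, 0, 0; -1, 3, 0, 0, 0; 0, -2, 4, 0, 0; 0, 0, -3, 5, 0; 0, 0, -3, -3, 4] : Matrix (Fin 5) (Fin 5) ℤ) i i = 480 from by decide +kernel] at h
  omega

theorem Dm_E6 : (Dm 6 2).det = 3 := by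
  have h := det_aux (D := Dm 6 2)
    (U := !![1, 1, 1, 1, 1, 3; 0, 2, 2, 2, 2, 6; 0, 0, 3, 3, 3, 9; 0, 0, 0, 4, 4, 6; 0, 0, 0, 0, 5, 3; 0, 0, 0, 0, 0, 6])
    (L := !![2, 0, 0, 0, 0, 0; -1, 3, 0, 0, 0, 0; 0, -2, 4, 0, 0, 0; 0, 0, -3, 5, 0, 0; 0, 0, 0, -4, 6, 0; 0, 0, -3, -3, -3, 3]) (by decide +kernel)
    (by decide +kernel) (by decide +kernel)
  rw [show ∏ i : Fin 6, (!![1, 1, 1, 1, 1, 3; 0, 2, 2, 2, 2, 6; 0, 0, 3, 3, 3, 9; 0, 0, 0, 4, 4, 6; 0, 0, 0, 0, 5, 3; 0, 0, 0, 0, 0, 6] : Matrix (Fin 6) (Fin 6) ℤ) i i = 720 from by decide +kernel,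
    show ∏ i : Fin 6, (!![2, 0, 0, 0, 0, 0; -1, 3, 0, 0, 0, 0; 0, -2, 4, 0, 0, 0; 0, 0, -3, 5, 0, 0; 0, 0, 0, -4, 6, 0; 0, 0, -3, -3, -3, 3] : Matrix (Fin 6) (Fin 6) ℤ) i i = 2160 from by decide +kernel] at h
  omega

theorem Dm_E7 : (Dm 7 2).det = 2 := by
  have h := det_aux (D := Dm 7 2)
    (U := !![1, 1, 1, 1, 1, 1, 4; 0, 2, 2, 2, 2, 2, 8; 0, 0, 3, 3, 3, 3, 12; 0, 0, 0, 4, 4, 4, 9; 0, 0, 0, 0, 5, 5, 6; 0, 0, 0, 0, 0, 6, 3; 0, 0, 0, 0, 0, 0, 7])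
    (L := !![2, 0, 0, 0, 0, 0, 0; -1, 3, 0, 0, 0, 0, 0; 0, -2, 4, 0, 0, 0, 0; 0, 0, -3, 5, 0, 0, 0; 0, 0, 0, -4, 6, 0, 0; 0, 0, 0, 0, -5, 7, 0; 0, 0, -3, -3, -3, -3, 2]) (by decide +kernel)
    (by decide +kernel) (by decide +kernel)
  rw [show ∏ i : Fin 7, (!![1, 1, 1, 1, 1, 1, 4; 0, 2, 2, 2, 2, 2, 8; 0, 0, 3, 3, 3, 3, 12; 0, 0, 0, 4, 4, 4, 9; 0, 0, 0, 0, 5, 5, 6; 0, 0, 0, 0, 0, 6, 3; 0, 0, 0, 0, 0, 0, 7] : Matrix (Fin 7) (Fin 7) ℤ) i i = 5040 from by decide +kernel,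
    show ∏ i : Fin 7, (!![2, 0, 0, 0, 0, 0, 0; -1, 3, 0, 0, 0, 0, 0; 0, -2, 4, 0, 0, 0, 0; 0, 0, -3, 5, 0, 0, 0; 0, 0, 0, -4, 6, 0, 0; 0, 0, 0, 0, -5, 7, 0; 0, 0, -3, -3, -3, -3, 2] : Matrix (Fin 7) (Fin 7) ℤ) i i = 10080 from by decide +kernel] at h
  omega

theorem Dm_E8 : (Dm 8 2).det = 1 := by
  have h := det_aux (D := Dm 8 2)
    (U := !![1, 1, 1, 1, 1, 1, 1, 5; 0, 2, 2, 2, 2, 2, 2, 10; 0, 0, 3, 3, 3, 3, 3, 15; 0, 0, 0, 4, 4, 4, 4, 12; 0, 0, 0, 0, 5, 5, 5, 9; 0, 0, 0, 0, 0, 6, 6, 6; 0, 0, 0, 0, 0, 0, 7, 3; 0, 0, 0, 0, 0, 0, 0, 8])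
    (L := !![2, 0, 0, 0, 0, 0, 0, 0; -1, 3, 0, 0, 0, 0, 0, 0; 0, -2, 4, 0, 0, 0, 0, 0; 0, 0, -3, 5, 0, 0, 0, 0; 0, 0, 0, -4, 6, 0, 0, 0; 0, 0, 0, 0, -5, 7, 0, 0; 0, 0, 0, 0, 0, -6, 8, 0; 0, 0, -3, -3, -3, -3, -3, 1]) (by decide +kernel)
    (by decide +kernel) (by decide +kernel)
  rw [show ∏ i : Fin 8, (!![1, 1, 1, 1, 1, 1, 1, 5; 0, 2, 2, 2, 2, 2, 2, 10; 0, 0, 3, 3, 3, 3, 3, 15; 0, 0, 0, 4, 4, 4, 4, 12; 0, 0, 0, 0, 5, 5, 5, 9; 0, 0, 0, 0, 0, 6, 6, 6; 0, 0, 0, 0, 0, 0, 7, 3; 0, 0, 0, 0, 0, 0, 0, 8] : Matrix (Fin 8) (Fin 8) ℤ) i i = 40320 from by decide +kernel,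
    show ∏ i : Fin 8, (!![2, 0, 0, 0, 0, 0, 0, 0; -1, 3, 0, 0, 0, 0, 0, 0; 0, -2, 4, 0, 0, 0, 0, 0; 0, 0, -3, 5, 0, 0, 0, 0; 0, 0, 0, -4, 6, 0, 0, 0; 0, 0, 0, 0, -5, 7, 0, 0; 0, 0, 0, 0, 0, -6, 8, 0; 0, 0, -3, -3, -3, -3, -3, 1] : Matrix (Fin 8) (Fin 8) ℤ) i i = 40320 from by decide +kernel] at h
  omega

end Pool.Agent.H40.NUM
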