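import Pool.Agent.H40.NUM.N1
import Pool.Agent.H40.NUM.N3
import Pool.Agent.H27.NUM.PD

/-!
KAC ADE numbers: the class zero numbers of `A_n`, `D_5`, `E_6`, `E_7`.
-/

set_option autoImplicit false

namespace Pool.Agent.H40.NUM

open scoped BigOperators
open Pool.Agent.H27.KAC Pool.H88.Num
open Pool.H88.KA (Typ Std cox MMok mm_eq TT typ_exists)
open Pool.H27.PD (PC QQ)
open Polynomial

section

variable {I : Type} [Fintype I] [DecidableEq I]

/-- class zero is a weight class. -/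
theorem wtl_zero (a : I → I → ℕ) (A : Finset I) : WtL a A (fun _ => 0) := by
  intro x hx
  refine ⟨0, ?_⟩
  unfold cqN
  simp

/-- data of a polynomial of class zero. -/
theorem pc_of {a : I → I → ℕ} {cd : CrossData a}
    (heps : ∀ A q, (∀ x ∈ A, IsZ (q x)) → cd.eps A q = 1)
    {A : Finset I} (hne : A.Nonempty) {P : Polynomial ℚ} (h : PolyOf a cd A (fun _ => 0) P) {m : ℕ}
    {l : ℚ} {k : ℕ} (hm : cd.mm A = m) (hl : l = -((-1) ^ (k - 1))) (hk : A.card + 1 = k) :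
    PC P (cn a cd A (fun _ => 0)) m l k := by
  refine ⟨h.c0, ?_, ?_, h.mul, ?_⟩
  · rw [h.deg, hm]
  · rw [h.lead, heps A _ (fun _ _ => isZ_zero), hl, ← hk]
    simp
  · rw [← hk]
    exact N1_a hne h

/-- the numbers of a chain. -/
theorem val_A {a : I → I → ℕ} {cd : CrossData a} (hmm : MMok a cd) (hR : RTnum a cd)
    (heps : ∀ A q, (∀ x ∈ A, IsZ (q x)) → cd.eps A q = 1) {A : Finset I} (hA : FinT a A)
    (hc : ConnS a A) {n c : ℕ} {φ : Fin n → I} (h : Typ a A n c φ) (hS : Std n c)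
    (hcox : cox n c = n + 1) (g : ℕ) : cn a cd A (fun _ => 0) g = (g + n).choose n := by
  obtain ⟨P, hP⟩ := polyOf_exists hR hA hc (wtl_zero a A)
  have h1 : PC P (cn a cd A (fun _ => 0)) (n + 1) (-((-1) ^ (n + 1 - 1))) (n + 1) :=
    pc_of heps hc.1 hP (by rw [mm_eq hmm hA hc h hS, hcox]) rfl (by rw [h.card])
  exact Pool.H27.PD.An_c hP.mul n (Pool.H27.PD.An h1 rfl) g

/-- the polynomial of `D_5`. -/
theorem pol_D5 {a : I → I → ℕ} (hs : ∀ i j, a i j = a j i) {cd : CrossData a} (hmm : MMok a cd)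
    (hR : RTnum a cd) (heps : ∀ A q, (∀ x ∈ A, IsZ (q x)) → cd.eps A q = 1) {A : Finset I}
    (hA : FinT a A) {φ : Fin 5 → I} (h : Typ a A 5 2 φ) : PolyOf a cd A (fun _ => 0) (QQ 6 2 0 0) := by
  have hc : ConnS a A := typ_conn h (by omega)
  obtain ⟨P, hP⟩ := polyOf_exists hR hA hc (wtl_zero a A)
  have h1 : PC P (cn a cd A (fun _ => 0)) 8 1 6 :=
    pc_of heps hc.1 hP (by rw [mm_eq hmm hA hc h (by unfold Std; omega)]; rfl) (by norm_num)
      (by rw [h.card])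
  have h2 : P = QQ 6 2 0 0 := Pool.H27.PD.D5 h1 (by
    rw [N1_c hs cd hA, dt_typ h, Dm_D5]
    norm_num)
  rw [← h2]
  exact hP

/-- one step along the chain. -/
theorem chain {a : I → I → ℕ} {cd : CrossData a} {A : Finset I} {n : ℕ} {φ : Fin (n + 1) → I}
    (h : Typ a A (n + 1) 2 φ) (hn : 4 ≤ n) {P F : Polynomial ℚ}
    (hP : PolyOf a cd A (fun _ => 0) P)
    (hF : PolyOf a cd (A.erase (φ ⟨n - 1, by omega⟩)) (fun _ => 0) F) :
    F ∣ P ∧ F ∣ X * derivative P := by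
  have h1 := typ_erase h (by omega)
  refine N1_b (h.mem ⟨n - 1, by omega⟩) ?_ hP hF
  rw [Finset.sdiff_singleton_eq_erase]
  exact comps_of_conn (typ_conn h1 (by omega))

/-- the polynomial of `E_6`. -/
theorem pol_E6 {a : I → I → ℕ} (hs : ∀ i j, a i j = a j i) {cd : CrossData a} (hmm : MMok a cd)
    (hR : RTnum a cd) (heps : ∀ A q, (∀ x ∈ A, IsZ (q x)) → cd.eps A q = 1) {A : Finset I}
    (hA : FinT a A) {φ : Fin 6 → I} (h : Typ a A 6 2 φ) : PolyOf a cd A (fun _ => 0) (QQ 7 3 1 0) := by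
  have hc : ConnS a A := typ_conn h (by omega)
  obtain ⟨P, hP⟩ := polyOf_exists hR hA hc (wtl_zero a A)
  have h1 : PC P (cn a cd A (fun _ => 0)) 12 (-1) 7 :=
    pc_of heps hc.1 hP (by rw [mm_eq hmm hA hc h (by unfold Std; omega)]; rfl) (by norm_num)
      (by rw [h.card])
  have h3 := typ_erase h (by omega)
  have h4 := chain h (by omega) hP
    (pol_D5 hs hmm hR heps (hA.mono (Finset.erase_subset _ _)) h3)
  have h2 : P = QQ 7 3 1 0 := Pool.H27.PD.E6 h1 (by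
    rw [N1_c hs cd hA, dt_typ h, Dm_E6]
    norm_num) h4.1 h4.2
  rw [← h2]
  exact hP

/-- the polynomial of `E_7`. -/
theorem pol_E7 {a : I → I → ℕ} (hs : ∀ i j, a i j = a j i) {cd : CrossData a} (hmm : MMok a cd)
    (hR : RTnum a cd) (heps : ∀ A q, (∀ x ∈ A, IsZ (q x)) → cd.eps A q = 1) {A : Finset I}
    (hA : FinT a A) {φ : Fin 7 → I} (h : Typ a A 7 2 φ) : PolyOf a cd A (fun _ => 0) (QQ 8 4 2 1) := by
  have hc : ConnS a A := typ_conn h (by omega)
  obtain ⟨P, hP⟩ := polyOf_exists hR hA hc (wtl_zero a A)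
  have h1 : PC P (cn a cd A (fun _ => 0)) 18 1 8 :=
    pc_of heps hc.1 hP (by rw [mm_eq hmm hA hc h (by unfold Std; omega)]; rfl) (by norm_num)
      (by rw [h.card])
  have h3 := typ_erase h (by omega)
  have h4 := chain h (by omega) hP
    (pol_E6 hs hmm hR heps (hA.mono (Finset.erase_subset _ _)) h3)
  have h2 : P = QQ 8 4 2 1 := Pool.H27.PD.E7 h1 (by
    rw [N1_c hs cd hA, dt_typ h, Dm_E7]
    norm_num) h4.1 h4.2
  rw [← h2]
  exact hP

/-- the polynomial of `E_8`, given its numbers up to five. -/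
theorem pol_E8 {a : I → I → ℕ} (hs : ∀ i j, a i j = a j i) {cd : CrossData a} (hmm : MMok a cd)
    (hR : RTnum a cd) (heps : ∀ A q, (∀ x ∈ A, IsZ (q x)) → cd.eps A q = 1) {A : Finset I}
    (hA : FinT a A) {φ : Fin 8 → I} (h : Typ a A 8 2 φ)
    (c1 : cn a cd A (fun _ => 0) 1 = 1) (c2 : cn a cd A (fun _ => 0) 2 = 3)
    (c3 : cn a cd A (fun _ => 0) 3 = 5) (c4 : cn a cd A (fun _ => 0) 4 = 10)
    (c5 : cn a cd A (fun _ => 0) 5 = 15) :
    PolyOf a cd A (fun _ => 0) (QQ 9 5 3 2 * (1 + X ^ 2 + X ^ 3 + X ^ 4 + X ^ 6)) := by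
  have hc : ConnS a A := typ_conn h (by omega)
  obtain ⟨P, hP⟩ := polyOf_exists hR hA hc (wtl_zero a A)
  have h1 : PC P (cn a cd A (fun _ => 0)) 30 (-1) 9 :=
    pc_of heps hc.1 hP (by rw [mm_eq hmm hA hc h (by unfold Std; omega)]; rfl) (by norm_num)
      (by rw [h.card])
  have h3 := typ_erase h (by omega)
  have h4 := chain h (by omega) hP
    (pol_E7 hs hmm hR heps (hA.mono (Finset.erase_subset _ _)) h3)
  have h2 : P = QQ 9 5 3 2 * (1 + X ^ 2 + X ^ 3 + X ^ 4 + X ^ 6) :=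
    Pool.H27.PD.E8 h1 c1 c2 c3 c4 c5 h4.1 h4.2
  rw [← h2]
  exact hP

end

end Pool.Agent.H40.NUM
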