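import Pool.Agent.H40.NUM.N4
import Pool.Agent.H41.NUM.E8val

/-!
KAC ADE numbers: the small values, positivity of class zero for `E_7` and `E_8`.
-/

set_option autoImplicit false

namespace Pool.Agent.H40.NUM

open scoped BigOperators
open Pool.Agent.H27.KAC Pool.H88.Num
open Pool.H88.KA (Typ Std cox MMok mm_eq TT typ_exists)
open Pool.H27.PD (PC QQ)
open Polynomial

section

variable {I : Type} [Fintype I] [DecidableEq I]

/-- the small values. -/
theorem smallVals {a : I → I → ℕ} (hs : ∀ i j, a i j = a j i) {cd : CrossData a} (hmm : MMok a cd)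
    (hR : RTnum a cd) (heps : ∀ A q, (∀ x ∈ A, IsZ (q x)) → cd.eps A q = 1) :
    SmallVals a cd := by
  have hconn : ∀ (N : Finset I) (n : ℕ) (φ : Fin n → I), 1 ≤ n → Typ a N n (n - 2) φ →
      ConnS a N := by
    intro N n φ hn h
    by_cases h2 : 2 ≤ n
    · exact typ_conn h (by omega)
    · have h1 : n = 1 := by omega
      subst h1
      have h3 : N = {φ 0} := by
        ext x
        rw [Finset.mem_singleton]
        constructor
        · intro hx
          obtain ⟨i, rfl⟩ := h.surj x hx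
          congr 1
          exact Subsingleton.elim _ _
        · rintro rfl
          exact h.mem 0
      rw [h3]
      exact conn_singleton a (φ 0)
  have han : ∀ (N : Finset I) (n : ℕ) (φ : Fin n → I), FinT a N → 1 ≤ n → Typ a N n (n - 2) φ →
      ∀ g : ℕ, cn a cd N (fun _ => 0) g = (Nat.choose (g + n) n : ℚ) := by
    intro N n φ hN hn h g
    refine val_A hmm hR heps hN (hconn N n φ hn h) h ?_ ?_ g
    · unfold Std
      omega
    · unfold cox
      split_ifs <;> omega
  refine ⟨han, ?_, ?_, ?_, ?_, ?_, ?_, ?_⟩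
  · intro N n φ hN hn h
    rw [← N1_c hs cd hN, han N n φ hN hn h 1]
    rw [Nat.add_comm 1 n, Nat.choose_succ_self_right]
    push_cast
    ring
  · intro N φ hN h
    have h1 := Pool.H27.PD.D5_c (pol_D5 hs hmm hR heps hN h).mul rfl
    exact h1.2
  · intro N φ hN h
    rw [dt_typ h, Dm_D5]
    norm_num
  · intro N φ hN h
    have h1 := Pool.H27.PD.E6_c (pol_E6 hs hmm hR heps hN h).mul rfl
    exact h1.2
  · intro N φ hN h
    rw [dt_typ h, Dm_E6]
    norm_num
  · intro N φ hN h
    have h1 := Pool.H27.PD.E7_c (pol_E7 hs hmm hR heps hN h).mul rfl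
    exact h1.2
  · intro N φ hN h
    rw [dt_typ h, Dm_E7]
    norm_num

theorem E78_nonneg' {a : I → I → ℕ} (hs : ∀ i j, a i j = a j i) (cd : CrossData a)
    (hmm : MMok a cd) (hR : RTnum a cd)
    (heps : ∀ A q, (∀ x ∈ A, IsZ (q x)) → cd.eps A q = 1)
    {A : Finset I} (hA : FinT a A) {n : ℕ} {φ : Fin n → I} (h : Typ a A n 2 φ)
    (hn : n = 7 ∨ n = 8) (g : ℕ) : 0 ≤ cn a cd A (fun _ => 0) g := by
  rcases hn with hn | hn
  · subst hn
    exact Pool.H27.PD.E7_pos (pol_E7 hs hmm hR heps hA h).mul rfl g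
  · subst hn
    have hd8 : dt a A = 1 := by
      rw [dt_typ h, Dm_E8]
      norm_num
    obtain ⟨c1, c2, c3, c4, c5⟩ := E8_vals hs hmm (smallVals hs hmm hR heps) heps hA h hd8
    exact Pool.H27.PD.E8_pos (pol_E8 hs hmm hR heps hA h c1 c2 c3 c4 c5).mul rfl g

end

end Pool.Agent.H40.NUM
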